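import Mathlib
import Pool.Agent.Q147.Heis

/-!
# MP_b73301_gt : bounded double-centralizer sets need not be closed nor `σ`-discrete

`Q1`: in the group of finitary permutations of `ℕ` the set `S_{≤ 2}` is not closed: it contains
the involutions that swap an initial segment with its translate, and these are dense, but it
does not contain `3`-cycles.
`Q2`: a Heisenberg group.
-/

namespace Pool.Agent.Results.MP_b73301_gt.NotClosedNotSigmaDiscrete

open Set Topology Pool.Agent.Q147.SemiZar Pool.Agent.Q147.Heis

/-- The map that swaps `k` and `k + N` for `k < N`. -/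
def sw (N k : ℕ) : ℕ := if k < N then k + N else if k < 2 * N then k - N else k

theorem sw_invol (N : ℕ) : Function.Involutive (sw N) := by
  intro k
  unfold sw
  split_ifs <;> omega

/-- The involution as an element of the group of finitary permutations. -/
def inv (N : ℕ) : FS := ⟨(sw_invol N).toPerm, by
  refine (Set.finite_Iio (2 * N)).subset ?_
  intro k hk
  by_contra h
  apply hk
  change sw N k = k
  simp only [Set.mem_Iio, not_lt] at h
  unfold sw
  split_ifs <;> omega⟩

theorem inv_apply (N k : ℕ) : (inv N).1 k = sw N k := rfl

/-- The double centralizer of the involution has at most two elements. -/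
theorem inv_cc (N : ℕ) {g : FS} (hg : g ∈ Cent (Cent {inv N})) : g = 1 ∨ g = inv N := by
  -- transpositions `(k, k + N)`
  have hc : ∀ τ : Equiv.Perm ℕ, ∀ hτ : τ ∈ FS, (∀ z, τ (sw N z) = sw N (τ z)) →
      ∀ z, g.1 (τ z) = τ (g.1 z) := by
    intro τ hτ h
    have h1 : (⟨τ, hτ⟩ : FS) ∈ Cent {inv N} := by
      intro f hf
      rw [Set.mem_singleton_iff] at hf
      subst hf
      apply Subtype.ext
      ext z
      exact h z
    have h2 := congrArg Subtype.val (hg _ h1)
    intro z
    exact congrArg (fun σ : Equiv.Perm ℕ => σ z) h2
  -- fixes points beyond `2 * N`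
  have hfar : ∀ z, 2 * N ≤ z → g.1 z = z := by
    intro z hz
    apply FS_centCent (Set.finite_singleton _) hg
    simp only [Set.mem_singleton_iff, Set.iUnion_iUnion_eq_left, Set.mem_ofPred_eq, not_not]
    rw [inv_apply]
    unfold sw
    split_ifs <;> omega
  have hpair : ∀ k, k < N → g.1 k = k ∨ g.1 k = k + N := by
    intro k hk
    refine pair_of_comm (by omega) ?_
    ext z
    refine hc (Equiv.swap k (k + N)) (swap_mem_FS _ _) ?_ z
    intro z
    simp only [Equiv.swap_apply_def, sw]
    split_ifs <;> omega
  have hpair' : ∀ k, k < N → g.1 (k + N) = k + N ∨ g.1 (k + N) = k := by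
    intro k hk
    refine pair_of_comm (by omega) ?_
    rw [Equiv.swap_comm]
    ext z
    refine hc (Equiv.swap k (k + N)) (swap_mem_FS _ _) ?_ z
    intro z
    simp only [Equiv.swap_apply_def, sw]
    split_ifs <;> omega
  -- double swaps
  have hd : ∀ k l, k < N → l < N → k ≠ l → g.1 k = k → g.1 l = l := by
    intro k l hk hl hkl hgk
    have h1 := hc (Equiv.swap k l * Equiv.swap (k + N) (l + N))
      (FS.mul_mem (swap_mem_FS _ _) (swap_mem_FS _ _)) (by
        intro z
        have e1 : ∀ a : ℕ, (Equiv.swap k l * Equiv.swap (k + N) (l + N)) a =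
            if a = k then l else if a = l then k else if a = k + N then l + N else
            if a = l + N then k + N else a := by
          intro a
          simp only [Equiv.Perm.mul_apply]
          by_cases h1 : a = k + N
          · subst h1
            rw [Equiv.swap_apply_left, Equiv.swap_apply_of_ne_of_ne (by omega) (by omega),
              if_neg (by omega), if_neg (by omega), if_pos rfl]
          · by_cases h2 : a = l + N
            · subst h2
              rw [Equiv.swap_apply_right, Equiv.swap_apply_of_ne_of_ne (by omega) (by omega),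
                if_neg (by omega), if_neg (by omega), if_neg (by omega), if_pos rfl]
            · rw [Equiv.swap_apply_of_ne_of_ne h1 h2, Equiv.swap_apply_def, if_neg h1, if_neg h2]
        rw [e1, e1]
        by_cases z1 : z = k
        · subst z1
          have : sw N z = z + N := by unfold sw; split_ifs; rfl
          rw [this, if_neg (by omega), if_neg (by omega), if_pos rfl, if_pos rfl]
          unfold sw; split_ifs; rfl
        · by_cases z2 : z = l
          · subst z2
            have : sw N z = z + N := by unfold sw; split_ifs; rfl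
            rw [this, if_neg (by omega), if_neg (by omega), if_neg (by omega), if_pos rfl,
              if_neg z1, if_pos rfl]
            unfold sw; split_ifs; rfl
          · by_cases z3 : z = k + N
            · subst z3
              have : sw N (k + N) = k := by unfold sw; split_ifs <;> omega
              rw [this, if_pos rfl, if_neg z1, if_neg z2, if_pos rfl]
              unfold sw; split_ifs <;> omega
            · by_cases z4 : z = l + N
              · subst z4
                have : sw N (l + N) = l := by unfold sw; split_ifs <;> omega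
                rw [this, if_neg (Ne.symm hkl), if_pos rfl, if_neg z1, if_neg z2, if_neg z3,
                  if_pos rfl]
                unfold sw; split_ifs <;> omega
              · rw [if_neg z1, if_neg z2, if_neg z3, if_neg z4]
                have w1 : sw N z ≠ k := by unfold sw; split_ifs <;> omega
                have w2 : sw N z ≠ l := by unfold sw; split_ifs <;> omega
                have w3 : sw N z ≠ k + N := by unfold sw; split_ifs <;> omega
                have w4 : sw N z ≠ l + N := by unfold sw; split_ifs <;> omega
                rw [if_neg w1, if_neg w2, if_neg w3, if_neg w4]) k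
    rw [hgk] at h1
    have h2 : (Equiv.swap k l * Equiv.swap (k + N) (l + N)) k = l := by
      simp only [Equiv.Perm.mul_apply, Equiv.swap_apply_def]
      split_ifs <;> omega
    rwa [h2] at h1
  by_cases hall : ∀ k, k < N → g.1 k = k
  · left
    apply Subtype.ext
    ext z
    change g.1 z = z
    by_cases h1 : z < N
    · exact hall z h1
    · by_cases h2 : z < 2 * N
      · obtain ⟨k, hk, rfl⟩ : ∃ k, k < N ∧ z = k + N := ⟨z - N, by omega, by omega⟩
        rcases hpair' k hk with h | h
        · exact h
        · exfalso
          have h3 := hall k hk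
          rw [← h3] at h
          have := g.1.injective h
          omega
      · exact hfar z (by omega)
  · right
    push Not at hall
    obtain ⟨k₀, hk₀, hne⟩ := hall
    have hall' : ∀ k, k < N → g.1 k = k + N := by
      intro k hk
      rcases hpair k hk with h | h
      · exfalso
        by_cases hkk : k = k₀
        · subst hkk; exact hne h
        · exact hne (hd k k₀ hk hk₀ hkk h)
      · exact h
    apply Subtype.ext
    ext z
    rw [inv_apply]
    unfold sw
    split_ifs with h1 h2
    · exact hall' z h1
    · obtain ⟨k, hk, rfl⟩ : ∃ k, k < N ∧ z = k + N := ⟨z - N, by omega, by omega⟩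
      rcases hpair' k hk with h | h
      · exfalso
        have h3 := hall' k hk
        have := g.1.injective (h.trans h3.symm)
        omega
      · rw [h]; omega
    · exact hfar z (by omega)

theorem inv_mem_Sle (N : ℕ) : inv N ∈ Sle FS 2 := by
  change (Cent (Cent {inv N})).encard ≤ (2 : ℕ)
  have hsub : Cent (Cent {inv N}) ⊆ {1, inv N} := by
    intro g hg
    rcases inv_cc N hg with h | h
    · exact Or.inl h
    · exact Or.inr h
  refine (Set.encard_le_encard hsub).trans ?_
  exact (Set.encard_insert_le _ _).trans (by rw [Set.encard_singleton]; norm_num)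

/-- The 3-cycle. -/
def cyc : FS := ⟨Equiv.swap 0 1 * Equiv.swap 1 2, FS.mul_mem (swap_mem_FS _ _) (swap_mem_FS _ _)⟩

theorem cyc_notMem_Sle : cyc ∉ Sle FS 2 := by
  intro h
  change (Cent (Cent {cyc})).encard ≤ (2 : ℕ) at h
  have h0 : (1 : FS) ∈ Cent (Cent {cyc}) := fun f _ => by simp
  have h1 : cyc ∈ Cent (Cent {cyc}) := fun f hf => (hf cyc rfl).symm
  have h2 : cyc * cyc ∈ Cent (Cent {cyc}) := fun f hf => by
    have := hf cyc rfl
    rw [mul_assoc, ← this, ← mul_assoc, ← this, mul_assoc]
  have e0 : cyc.1 0 = 1 := by
    simp [cyc, Equiv.swap_apply_def]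
  have e1 : (cyc * cyc).1 0 = 2 := by
    simp [cyc, Equiv.swap_apply_def]
  have n01 : (1 : FS) ≠ cyc := by
    intro h
    have h3 := congrArg (fun σ : FS => σ.1 0) h
    simp only [e0] at h3
    exact absurd h3 (by simp)
  have n02 : (1 : FS) ≠ cyc * cyc := by
    intro h
    have h3 := congrArg (fun σ : FS => σ.1 0) h
    simp only [e1] at h3
    exact absurd h3 (by simp)
  have n12 : cyc ≠ cyc * cyc := by
    intro h
    have h3 := congrArg (fun σ : FS => σ.1 0) h
    simp only [e0, e1] at h3
    exact absurd h3 (by norm_num)
  have hsub : ({1, cyc, cyc * cyc} : Set FS) ⊆ Cent (Cent {cyc}) := by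
    rintro x (rfl | rfl | rfl)
    · exact h0
    · exact h1
    · exact h2
  have h3 := (Set.encard_le_encard hsub).trans h
  rw [Set.encard_insert_of_notMem (by simp [n01, n02]), Set.encard_insert_of_notMem (by simp [n12]),
    Set.encard_singleton] at h3
  norm_num at h3

theorem dense_inv (f₀ : FS) : f₀ ∈ @closure FS (semiZariski FS) (Set.range inv) := by
  apply mem_closure_of
  intro P Q
  -- a bound for all supports
  have hfin : ((⋃ p ∈ P, {x | p.1 x ≠ x}) ∪ ((⋃ q ∈ Q, {x | q.1.1 x ≠ x}) ∪
      (⋃ q ∈ Q, {x | q.2.1 x ≠ x}))).Finite :=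
    (P.finite_toSet.biUnion fun p _ => p.2).union
      ((Q.finite_toSet.biUnion fun q _ => q.1.2).union
        (Q.finite_toSet.biUnion fun q _ => q.2.2))
  obtain ⟨M, hM⟩ := hfin.bddAbove
  have hP : ∀ p ∈ P, ∀ z, M < z → p.1 z = z := by
    intro p hp z hz
    by_contra hne
    exact absurd (hM (Or.inl (Set.mem_biUnion hp hne))) (not_le.2 hz)
  have hQ1 : ∀ q ∈ Q, ∀ z, M < z → q.1.1 z = z := by
    intro q hq z hz
    by_contra hne
    exact absurd (hM (Or.inr (Or.inl (Set.mem_biUnion hq hne)))) (not_le.2 hz)
  have hQ2 : ∀ q ∈ Q, ∀ z, M < z → q.2.1 z = z := by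
    intro q hq z hz
    by_contra hne
    exact absurd (hM (Or.inr (Or.inr (Set.mem_biUnion hq hne)))) (not_le.2 hz)
  refine ⟨inv (M + 1), ⟨_, rfl⟩, ?_, ?_⟩
  · intro p hp heq
    have h1 : p.1 0 = M + 1 := by
      rw [← heq, inv_apply]
      unfold sw
      split_ifs <;> omega
    have h2 := hP p hp (M + 1) (by omega)
    have := p.1.injective (h1.trans h2.symm)
    omega
  · intro q hq hne heq
    apply hne
    have hpt : ∀ z, q.1.1 (sw (M + 1) z) = sw (M + 1) (q.2.1 z) := fun z =>
      congrArg (fun σ : FS => σ.1 z) heq
    have h2 : q.2 = 1 := by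
      apply Subtype.ext
      ext z
      change q.2.1 z = z
      by_cases hz : z < M + 1
      · have h1 := hpt z
        have h3 : sw (M + 1) z = z + (M + 1) := by
          unfold sw; split_ifs; rfl
        rw [h3, hQ1 q hq _ (by omega)] at h1
        rw [← h3] at h1
        exact ((sw_invol (M + 1)).injective h1).symm
      · exact hQ2 q hq z (by omega)
    have h1 : q.1 = 1 := by
      rw [h2, mul_one] at heq
      exact mul_eq_right.1 heq
    rw [h1, h2]
    simp

/-- `Q1` and `Q2` have negative answers. -/
theorem result :
    (∃ (S : Type) (_ : Group S) (n : ℕ), FiniteDoubleCentralizers S ∧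
      ¬ @IsClosed S (semiZariski S) (Sle S n)) ∧
    (∃ (S : Type) (_ : Group S) (n : ℕ), FiniteDoubleCentralizers S ∧
      ¬ SigmaDiscreteOn (semiZariski S) (Sle S n)) := by
  refine ⟨⟨FS, inferInstance, 2, FS_finiteDoubleCentralizers, ?_⟩,
    ⟨Hs, inferInstance, 4, finiteDoubleCentralizers, ?_⟩⟩
  · intro h
    let _ : TopologicalSpace FS := semiZariski FS
    have h1 : closure (Set.range inv) ⊆ Sle FS 2 :=
      closure_minimal (by rintro _ ⟨N, rfl⟩; exact inv_mem_Sle N) h
    exact cyc_notMem_Sle (h1 (dense_inv cyc))
  · rw [Sle_four]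
    exact not_sigmaDiscrete

end Pool.Agent.Results.MP_b73301_gt.NotClosedNotSigmaDiscrete
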